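import Pool.Agent.V5helper87.ZM.Stm

/-!
Project ZM (helper87), job KBD: the norms of an eventually invariant `K` grow subexponentially.
-/

set_option autoImplicit false

open scoped Matrix Pointwise

namespace Pool.Agent.V5helper98.ZM

open Pool.Agent.H919R4.ZS Pool.Agent.TH38.CX Pool.Agent.TH38.ZT Pool.Agent.V5helper87.ZM

section

variable {G : Type} [Group G] {C : Subgroup G} [C.Normal] (t : G)

lemma cj_sg (c : C) : cj C t (sg c) = sg ((MulAut.conjNormal t : MulAut C) c) := by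
  simp [cj, sg, MonoidAlgebra.mapDomainRingHom_apply]

lemma cj_iter_sg (c : C) (k : ℕ) : ∃ c' : C, (cj C t)^[k] (sg c) = sg c' := by
  induction k with
  | zero => exact ⟨c, rfl⟩
  | succ k ih =>
    obtain ⟨c', h⟩ := ih
    exact ⟨_, by rw [Function.iterate_succ_apply', h, cj_sg]⟩

lemma cj_iter_add (k : ℕ) (r s : ZG C) :
    (cj C t)^[k] (r + s) = (cj C t)^[k] r + (cj C t)^[k] s := by
  induction k with
  | zero => rfl
  | succ k ih => rw [Function.iterate_succ_apply', ih, map_add, ← Function.iterate_succ_apply' (cj C t),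
      ← Function.iterate_succ_apply' (cj C t)]

lemma cj_iter_zsmul (k : ℕ) (m : ℤ) (r : ZG C) :
    (cj C t)^[k] (m • r) = m • (cj C t)^[k] r := by
  induction k with
  | zero => rfl
  | succ k ih => rw [Function.iterate_succ_apply', ih, map_zsmul,
      ← Function.iterate_succ_apply' (cj C t)]

lemma cj_iter_zero (k : ℕ) : (cj C t)^[k] (0 : ZG C) = 0 := by
  simp

/-- the orbit of an element under the conjugation is bounded -/
lemma cj_bdd {B : Type} [NormedRing B] (β : ZG C →+* B) (hβ : ∀ c, ‖β (sg c)‖ ≤ 1) (r : ZG C) :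
    ∃ M : ℝ, 0 ≤ M ∧ ∀ k : ℕ, ‖β ((cj C t)^[k] r)‖ ≤ M := by
  induction r using MonoidAlgebra.induction_linear with
  | zero => exact ⟨0, le_rfl, fun k => by rw [cj_iter_zero, map_zero, norm_zero]⟩
  | add r s hr hs =>
    obtain ⟨M, hM, h⟩ := hr
    obtain ⟨M', hM', h'⟩ := hs
    refine ⟨M + M', by positivity, fun k => ?_⟩
    rw [cj_iter_add, map_add]
    exact (norm_add_le _ _).trans (add_le_add (h k) (h' k))
  | single c m =>
    refine ⟨|(m : ℝ)|, abs_nonneg _, fun k => ?_⟩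
    have e : (MonoidAlgebra.single c m : ZG C) = m • sg c := by
      simp [sg]
    obtain ⟨c', hc'⟩ := cj_iter_sg t c k
    rw [e, cj_iter_zsmul, hc', map_zsmul]
    calc ‖m • β (sg c')‖ ≤ ‖m‖ * ‖β (sg c')‖ := norm_zsmul_le m _
      _ ≤ |(m : ℝ)| * 1 := by
          rw [Int.norm_eq_abs]
          exact mul_le_mul_of_nonneg_left (hβ c') (abs_nonneg _)
      _ = _ := mul_one _

variable {n : ℕ} (τ : Matrix (Fin n) (Fin n) (ZG C))

lemma sem_add (y z : Fin n → ZG C) : sem C t τ (y + z) = sem C t τ y + sem C t τ z := by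
  unfold sem
  rw [← Matrix.add_vecMul]
  congr 1
  funext b
  simp

lemma sem_smul (r : ZG C) (y : Fin n → ZG C) :
    sem C t τ (r • y) = cj C t r • sem C t τ y := by
  unfold sem
  rw [← Matrix.smul_vecMul]
  congr 1
  funext b
  simp

lemma sem_zero : sem C t τ 0 = 0 := by
  have := sem_smul t τ 0 0
  simpa using this

lemma sem_sum {ι : Type} (s : Finset ι) (y : ι → Fin n → ZG C) :
    sem C t τ (∑ i ∈ s, y i) = ∑ i ∈ s, sem C t τ (y i) := by
  classical
  induction s using Finset.induction_on with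
  | empty => simp [sem_zero]
  | insert a s ha ih => rw [Finset.sum_insert ha, Finset.sum_insert ha, sem_add, ih]

lemma sem_iter (k : ℕ) (y : Fin n → ZG C) :
    (sem C t τ)^[k] y = ∑ b, (cj C t)^[k] (y b) • (sem C t τ)^[k] (Pi.single b 1) := by
  induction k with
  | zero =>
    funext j
    simp [Finset.sum_apply, Pi.single_apply]
  | succ k ih =>
    rw [Function.iterate_succ_apply', ih, sem_sum]
    refine Finset.sum_congr rfl fun b _ => ?_
    rw [sem_smul, Function.iterate_succ_apply', Function.iterate_succ_apply']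

lemma iter_bound {B : Type} [NormedRing B] (β : ZG C →+* B) (hβ : ∀ c, ‖β (sg c)‖ ≤ 1)
    (l : ℝ) (h : ∃ c : ℝ, ∀ k a b, ‖β ((sem C t τ)^[k] (Pi.single a 1) b)‖ ≤ c * l ^ k)
    (y : Fin n → ZG C) : ∃ c : ℝ, 0 ≤ c ∧ ∀ k j, ‖β ((sem C t τ)^[k] y j)‖ ≤ c * l ^ k := by
  obtain ⟨c, hc⟩ := h
  choose M hM0 hM using fun b => cj_bdd t β hβ (y b)
  by_cases hn : Nonempty (Fin n)
  swap
  · exact ⟨0, le_rfl, fun k j => absurd ⟨j⟩ hn⟩
  obtain ⟨j0⟩ := hn
  have hc0 : 0 ≤ c := by
    have := (norm_nonneg _).trans (hc 0 j0 j0)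
    simpa using this
  refine ⟨∑ b, M b * c, Finset.sum_nonneg fun b _ => mul_nonneg (hM0 b) hc0, fun k j => ?_⟩
  rw [sem_iter, Finset.sum_apply, map_sum, Finset.sum_mul]
  refine (norm_sum_le _ _).trans (Finset.sum_le_sum fun b _ => ?_)
  rw [Pi.smul_apply, smul_eq_mul, map_mul]
  refine (norm_mul_le _ _).trans ?_
  rw [mul_assoc]
  exact mul_le_mul (hM b k) (hc k b j) (norm_nonneg _) (hM0 b)

end

theorem t_KBD : S_KBD := by
  intro G _ C _ π t hπ hC ht B _ β hβ m n τ σ K hK hN hτ hσ l hl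
  obtain ⟨N, h1, h2⟩ := hN
  have hl0 : 0 < l := by linarith
  have hπ1 : π 1 = 0 := by have := hπ 1 1; simp at this; exact this
  have hπi : ∀ g, π g⁻¹ = - π g := fun g => by
    have := hπ g g⁻¹
    rw [mul_inv_cancel, hπ1] at this
    omega
  let πh : G →* Multiplicative ℤ :=
    MonoidHom.mk' (fun g => Multiplicative.ofAdd (π g)) fun g h => congrArg Multiplicative.ofAdd (hπ g h)
  have hπt : ∀ p : ℤ, π (t ^ p) = p := fun p => by
    have h := map_zpow πh t p
    have h' : Multiplicative.toAdd (πh (t ^ p)) = p * Multiplicative.toAdd (πh t) := by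
      rw [h, toAdd_zpow, smul_eq_mul]
    have h'' : π (t ^ p) = p * π t := h'
    rw [h'', ht, mul_one]
  -- the iteration in the two directions
  have i1 : ∀ (k : ℕ) (g : G), N ≤ π g → ∀ a, K (t ^ k * g) a = (sem C t τ)^[k] (K g a) := by
    intro k g hg a
    induction k with
    | zero => simp
    | succ k ih =>
      rw [pow_succ', mul_assoc, h1 _ _ a, ih, Function.iterate_succ_apply']
      have e : π (t ^ k) = (k : ℤ) := by
        have := hπt k
        rwa [zpow_natCast] at this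
      rw [hπ, e]
      omega
  have i2 : ∀ (k : ℕ) (g : G), π g ≤ -N → ∀ a,
      K (t⁻¹ ^ k * g) a = (sem C t⁻¹ σ)^[k] (K g a) := by
    intro k g hg a
    induction k with
    | zero => simp
    | succ k ih =>
      rw [pow_succ', mul_assoc, h2 _ _ a, ih, Function.iterate_succ_apply']
      have e : π (t⁻¹ ^ k) = -(k : ℤ) := by
        have := hπt k
        rw [zpow_natCast] at this
        rw [inv_pow, hπi, this]
      rw [hπ, e]
      omega
  -- the value at `g` is bounded by the value at `t ^ π g`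
  have hred : ∀ g a b, ‖β (K g a b)‖ ≤ ‖β (K (t ^ (π g)) a b)‖ := by
    intro g a b
    have hc : g * (t ^ (π g))⁻¹ ∈ C := by
      rw [hC, hπ, hπi, hπt]
      ring
    have e := hK ⟨g * (t ^ (π g))⁻¹, hc⟩ (t ^ (π g)) a b
    have e' : ((⟨g * (t ^ (π g))⁻¹, hc⟩ : C) : G) * t ^ (π g) = g := by simp
    rw [e'] at e
    rw [e, map_mul]
    refine (norm_mul_le _ _).trans ?_
    exact mul_le_of_le_one_left (norm_nonneg _) (hβ _)
  -- upper and lower ranges
  obtain ⟨c1, c10, hc1⟩ : ∃ c1 : ℝ, 0 ≤ c1 ∧ ∀ p : ℤ, N ≤ p → ∀ a b,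
      ‖β (K (t ^ p) a b)‖ ≤ c1 * l ^ p.natAbs := by
    choose c c0 hc using fun a => iter_bound t τ β hβ l (hτ l hl) (K (t ^ N) a)
    refine ⟨(∑ a, c a) * l ^ N.natAbs, mul_nonneg (Finset.sum_nonneg fun a _ => c0 a) (by positivity),
      fun p hp a b => ?_⟩
    have e : t ^ p = t ^ (p - N).toNat * t ^ N := by
      rw [← zpow_natCast, ← zpow_add]
      congr 1
      omega
    rw [e, i1 _ _ (by rw [hπt]) a]
    refine (hc a _ b).trans ?_
    have h3 : c a ≤ ∑ a, c a := Finset.single_le_sum (fun a _ => c0 a) (Finset.mem_univ a)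
    have h4 : l ^ (p - N).toNat ≤ l ^ (N.natAbs + p.natAbs) :=
      pow_le_pow_right₀ hl.le (by omega)
    calc c a * l ^ (p - N).toNat ≤ (∑ a, c a) * l ^ (N.natAbs + p.natAbs) :=
          mul_le_mul h3 h4 (by positivity) (Finset.sum_nonneg fun a _ => c0 a)
      _ = _ := by rw [pow_add]; ring
  obtain ⟨c2, c20, hc2⟩ : ∃ c2 : ℝ, 0 ≤ c2 ∧ ∀ p : ℤ, p ≤ -N → ∀ a b,
      ‖β (K (t ^ p) a b)‖ ≤ c2 * l ^ p.natAbs := by
    choose c c0 hc using fun a => iter_bound t⁻¹ σ β hβ l (hσ l hl) (K (t ^ (-N)) a)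
    refine ⟨(∑ a, c a) * l ^ N.natAbs, mul_nonneg (Finset.sum_nonneg fun a _ => c0 a) (by positivity),
      fun p hp a b => ?_⟩
    have e : t ^ p = t⁻¹ ^ (-N - p).toNat * t ^ (-N) := by
      rw [inv_pow, ← zpow_natCast, ← zpow_neg, ← zpow_add]
      congr 1
      omega
    rw [e, i2 _ _ (by rw [hπt]) a]
    refine (hc a _ b).trans ?_
    have h3 : c a ≤ ∑ a, c a := Finset.single_le_sum (fun a _ => c0 a) (Finset.mem_univ a)
    have h4 : l ^ (-N - p).toNat ≤ l ^ (N.natAbs + p.natAbs) :=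
      pow_le_pow_right₀ hl.le (by omega)
    calc c a * l ^ (-N - p).toNat ≤ (∑ a, c a) * l ^ (N.natAbs + p.natAbs) :=
          mul_le_mul h3 h4 (by positivity) (Finset.sum_nonneg fun a _ => c0 a)
      _ = _ := by rw [pow_add]; ring
  -- the middle range
  let D : ℤ → ℝ := fun p => ∑ a, ∑ b, ‖β (K (t ^ p) a b)‖
  have hD0 : ∀ p, 0 ≤ D p := fun p =>
    Finset.sum_nonneg fun a _ => Finset.sum_nonneg fun b _ => norm_nonneg _
  refine ⟨c1 + c2 + ∑ p ∈ Finset.Ioo (-N) N, D p, fun g a b => (hred g a b).trans ?_⟩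
  have hS : 0 ≤ ∑ p ∈ Finset.Ioo (-N) N, D p := Finset.sum_nonneg fun p _ => hD0 p
  have hpow : 0 < l ^ (π g).natAbs := by positivity
  rcases le_or_gt N (π g) with h | h
  · refine (hc1 _ h a b).trans ?_
    exact mul_le_mul_of_nonneg_right (by linarith) hpow.le
  rcases le_or_gt (π g) (-N) with h' | h'
  · refine (hc2 _ h' a b).trans ?_
    exact mul_le_mul_of_nonneg_right (by linarith) hpow.le
  have hle : ‖β (K (t ^ (π g)) a b)‖ ≤ ∑ p ∈ Finset.Ioo (-N) N, D p := by
    refine le_trans ?_ (Finset.single_le_sum (fun p _ => hD0 p) (Finset.mem_Ioo.2 ⟨h', h⟩))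
    refine le_trans ?_ (Finset.single_le_sum
      (f := fun a => ∑ b, ‖β (K (t ^ (π g)) a b)‖)
      (fun a _ => Finset.sum_nonneg fun b _ => norm_nonneg _) (Finset.mem_univ a))
    exact Finset.single_le_sum (f := fun b => ‖β (K (t ^ (π g)) a b)‖)
      (fun b _ => norm_nonneg _) (Finset.mem_univ b)
  have h1l : 1 ≤ l ^ (π g).natAbs := one_le_pow₀ hl.le
  nlinarith [mul_nonneg (add_nonneg c10 c20) hpow.le, mul_le_mul_of_nonneg_left h1l hS]

end Pool.Agent.V5helper98.ZM
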